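import Mathlib

set_option autoImplicit false

namespace Pool.Agent.Lib.MP_817dae_lc

open Filter Set Cardinal

section indep

/-- an independent family of continuum many functions on the natural numbers -/
theorem exists_indep : ∃ g : (ℕ → Bool) → ℕ → ℕ,
    ∀ (s : Finset (ℕ → Bool)) (v : (ℕ → Bool) → ℕ), {n | ∀ x ∈ s, g x n = v x}.Infinite := by
  classical
  let Ω := Σ k : ℕ, ((Fin k → Bool) → ℕ)
  have : Countable Ω := inferInstance
  have : Infinite Ω := Infinite.of_injective (fun k : ℕ => (⟨k, fun _ => 0⟩ : Ω))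
    fun a b h => congrArg Sigma.fst h
  obtain ⟨e⟩ : Nonempty (ℕ ≃ Ω) := nonempty_equiv_of_countable
  let res : (ℕ → Bool) → (k : ℕ) → Fin k → Bool := fun x k i => x i
  refine ⟨fun x n => (e n).2 (res x (e n).1), fun s v => ?_⟩
  have hev : ∀ᶠ k in atTop, ∀ x ∈ s, ∀ y ∈ s, res x k = res y k → x = y := by
    rw [Finset.eventually_all]
    intro x _
    rw [Finset.eventually_all]
    intro y _
    by_cases h : x = y
    · exact Eventually.of_forall fun _ _ => h
    · obtain ⟨i, hi⟩ := Function.ne_iff.1 h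
      filter_upwards [eventually_gt_atTop i] with k hk hres
      exact absurd (congrFun hres ⟨i, hk⟩) hi
  obtain ⟨k0, hk0⟩ := eventually_atTop.1 hev
  let φ : (k : ℕ) → (Fin k → Bool) → ℕ := fun k w =>
    if h : ∃ x ∈ s, res x k = w then v h.choose else 0
  have hφ : ∀ k ≥ k0, ∀ x ∈ s, φ k (res x k) = v x := by
    intro k hk x hx
    have h : ∃ y ∈ s, res y k = res x k := ⟨x, hx, rfl⟩
    simp only [φ, dif_pos h]
    rw [hk0 k hk _ h.choose_spec.1 x hx h.choose_spec.2]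
  refine Set.infinite_of_injective_forall_mem
    (f := fun j : ℕ => e.symm ⟨k0 + j, φ (k0 + j)⟩) (fun a b h => ?_) fun j x hx => ?_
  · have := congrArg Sigma.fst (e.symm.injective h)
    simpa using this
  · show (e (e.symm ⟨k0 + j, φ (k0 + j)⟩)).2 (res x (e (e.symm ⟨k0 + j, φ (k0 + j)⟩)).1) = v x
    rw [e.apply_symm_apply]
    exact hφ _ (Nat.le_add_right _ _) x hx

end indep

section step

variable {K : Type} (g : K → ℕ → ℕ)

/-- the Boolean combinations avoiding `S` -/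
def Cond (S : Set K) (A : Set ℕ) : Prop :=
  ∃ (s : Finset K) (v : K → ℕ), Disjoint (s : Set K) S ∧ A = {n | ∀ x ∈ s, g x n = v x}

/-- the functions outside `S` are independent modulo `F` -/
def Good (F : Filter ℕ) (S : Set K) : Prop := ∀ A, Cond g S A → ∃ᶠ n in F, n ∈ A

/-- `E` is not a transversal for any ultrafilter refining `F` -/
def Kill (F : Filter ℕ) (E : Set (ℕ → ℕ)) : Prop :=
  (∃ f ∈ E, ∃ f' ∈ E, f ≠ f' ∧ ∀ᶠ n in F, f n = f' n) ∨ ∃ h : ℕ → ℕ, ∀ f ∈ E, ∀ᶠ n in F, f n ≠ h n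

variable {g}

theorem Kill.mono {F F' : Filter ℕ} {E : Set (ℕ → ℕ)} (h : Kill F E) (hF : F' ≤ F) :
    Kill F' E := by
  rcases h with ⟨f, hf, f', hf', h1, h2⟩ | ⟨h, hh⟩
  · exact Or.inl ⟨f, hf, f', hf', h1, hF h2⟩
  · exact Or.inr ⟨h, fun f hf => hF (hh f hf)⟩

theorem Cond.mono {S S' : Set K} {A : Set ℕ} (h : Cond g S' A) (hS : S ⊆ S') : Cond g S A := by
  obtain ⟨s, v, h1, h2⟩ := h
  exact ⟨s, v, h1.mono_right hS, h2⟩

theorem cond_inter {S : Set K} {s : Finset K} (v : K → ℕ) (hs : Disjoint (s : Set K) S)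
    {A : Set ℕ} (hA : Cond g (S ∪ s) A) : Cond g S ({n | ∀ x ∈ s, g x n = v x} ∩ A) := by
  classical
  obtain ⟨s', v', h1, rfl⟩ := hA
  have h2 : ∀ x ∈ s', x ∉ s := fun x hx hxs =>
    Set.disjoint_left.1 h1 hx (Or.inr hxs)
  refine ⟨s ∪ s', fun x => if x ∈ s then v x else v' x, ?_, ?_⟩
  · rw [Finset.coe_union, Set.disjoint_union_left]
    exact ⟨hs, h1.mono_right subset_union_left⟩
  · ext n
    simp only [mem_inter_iff, mem_ofPred_eq, Finset.mem_union]
    constructor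
    · rintro ⟨ha, hb⟩ x (hx | hx)
      · rw [if_pos hx]; exact ha x hx
      · rw [if_neg (h2 x hx)]; exact hb x hx
    · intro h
      refine ⟨fun x hx => ?_, fun x hx => ?_⟩
      · have := h x (Or.inl hx)
        rwa [if_pos hx] at this
      · have := h x (Or.inr hx)
        rwa [if_neg (h2 x hx)] at this

theorem step_exists {F : Filter ℕ} {S : Set K} (hF : Good g F S) {ξ : K} (hξ : ξ ∉ S)
    (E : Set (ℕ → ℕ)) :
    ∃ p : Filter ℕ × Finset K, p.1 ≤ F ∧ Good g p.1 (S ∪ p.2) ∧ Kill p.1 E := by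
  classical
  by_cases hE : E.Finite
  · refine ⟨(F, ∅), le_rfl, by simpa using hF, Or.inr ⟨fun n => hE.toFinset.sup (fun f => f n) + 1,
      fun f hf => Eventually.of_forall fun n => ?_⟩⟩
    have := Finset.le_sup (f := fun f : ℕ → ℕ => f n) (hE.mem_toFinset.2 hf)
    simp only at this ⊢
    omega
  by_cases ha : ∃ f ∈ E, ∃ f' ∈ E, f ≠ f' ∧ ∃ A, Cond g S A ∧
      ∀ A', Cond g S A' → A' ⊆ A → ∃ᶠ n in F, n ∈ A' ∧ f n = f' n
  · obtain ⟨f, hf, f', hf', hne, A, ⟨s, v, hs, rfl⟩, hA⟩ := ha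
    refine ⟨(F ⊓ 𝓟 {n | f n = f' n}, s), inf_le_left, fun A' hA' => ?_,
      Or.inl ⟨f, hf, f', hf', hne, ?_⟩⟩
    · rw [frequently_inf_principal]
      exact (hA _ (cond_inter v hs hA') inter_subset_left).mono fun n hn => ⟨hn.2, hn.1.2⟩
    · exact mem_inf_of_right (mem_principal_self _)
  push Not at ha
  have hE' : E.Infinite := hE
  let u : ℕ → ℕ → ℕ := fun m => (hE'.natEmbedding E m).1
  have hu : ∀ m, u m ∈ E := fun m => (hE'.natEmbedding E m).2
  have hui : Function.Injective u := fun a b h =>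
    (hE'.natEmbedding E).injective (Subtype.ext h)
  let h : ℕ → ℕ := fun n => u (g ξ n) n
  have key : ∀ m, ∀ T : Finset (ℕ → ℕ), (∀ f ∈ T, f ∈ E ∧ f ≠ u m) → ∀ A, Cond g S A →
      ∃ A', Cond g S A' ∧ A' ⊆ A ∧ ∀ᶠ n in F, n ∈ A' → ∀ f ∈ T, f n ≠ u m n := by
    intro m T
    induction T using Finset.induction_on with
    | empty => exact fun _ A hA => ⟨A, hA, subset_rfl, by simp⟩
    | insert f T _ ih =>
      intro hT A hA
      obtain ⟨A1, h1, h2, h3⟩ := ih (fun f' hf' => hT f' (Finset.mem_insert_of_mem hf')) A hA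
      obtain ⟨hfE, hfu⟩ := hT f (Finset.mem_insert_self _ _)
      obtain ⟨A2, h4, h5, h6⟩ := ha f hfE (u m) (hu m) hfu A1 h1
      refine ⟨A2, h4, h5.trans h2, ?_⟩
      filter_upwards [h3, h6] with n hn1 hn2 hn f' hf'
      rcases Finset.mem_insert.1 hf' with rfl | hf'
      · exact hn2 hn
      · exact hn1 (h5 hn) f' hf'
  refine ⟨(F ⊓ ⨅ f ∈ E, 𝓟 {n | f n ≠ h n}, {ξ}), inf_le_left, fun A hA => ?_,
    Or.inr ⟨h, fun f hf => ?_⟩⟩
  · intro hcon
    obtain ⟨U, hU, W, hW, hUW⟩ := mem_inf_iff.1 hcon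
    obtain ⟨T, hTE, hTf, hT⟩ : ∃ T ⊆ E, T.Finite ∧ (⋂ f ∈ T, {n | f n ≠ h n}) ⊆ W := by
      rw [mem_biInf_principal] at hW
      obtain ⟨T, h1, h2, h3⟩ := hW
      exact ⟨T, fun f hf => h2 f hf, h1, h3⟩
    obtain ⟨m, hm⟩ : ∃ m, u m ∉ T := by
      by_contra hc
      push Not at hc
      exact Set.infinite_of_injective_forall_mem hui hc hTf
    have hA0 := cond_inter (s := {ξ}) (fun _ => m) (by simpa using hξ) hA
    obtain ⟨A', h1, h2, h3⟩ := key m hTf.toFinset (fun f hf => by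
      have hf' := hTf.mem_toFinset.1 hf
      exact ⟨hTE hf', fun h => hm (h ▸ hf')⟩) _ hA0
    obtain ⟨n, hn1, hn2, hn3⟩ := ((hF A' h1).and_eventually (h3.and hU)).exists
    have hn4 := h2 hn1
    have hg : g ξ n = m := hn4.1 ξ (Finset.mem_singleton_self ξ)
    have hnW : n ∈ W := hT (by
      simp only [mem_iInter]
      intro f hf
      have := hn2 hn1 f (hTf.mem_toFinset.2 hf)
      simpa [h, hg] using this)
    have : n ∈ {n | ¬ n ∈ A} := by rw [hUW]; exact ⟨hn3, hnW⟩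
    exact this hn4.2
  · refine mem_inf_of_right ?_
    exact mem_iInf_of_mem f (mem_iInf_of_mem hf (mem_principal_self _))

open Classical in
/-- a total version of the successor step -/
noncomputable def stepFn (g : K → ℕ → ℕ) (F : Filter ℕ) (S : Set K) (E : Set (ℕ → ℕ)) :
    Filter ℕ × Finset K :=
  if h : ∃ p : Filter ℕ × Finset K, p.1 ≤ F ∧ Good g p.1 (S ∪ p.2) ∧ Kill p.1 E then h.choose
  else (F, ∅)

theorem stepFn_le (F : Filter ℕ) (S : Set K) (E : Set (ℕ → ℕ)) : (stepFn g F S E).1 ≤ F := by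
  unfold stepFn
  split_ifs with h
  · exact h.choose_spec.1
  · exact le_rfl

theorem stepFn_spec {F : Filter ℕ} {S : Set K} (hF : Good g F S) {ξ : K} (hξ : ξ ∉ S)
    (E : Set (ℕ → ℕ)) :
    Good g (stepFn g F S E).1 (S ∪ (stepFn g F S E).2) ∧ Kill (stepFn g F S E).1 E := by
  have h := step_exists hF hξ E
  unfold stepFn
  rw [dif_pos h]
  exact h.choose_spec.2

theorem freq_iInf {ι : Type} [LinearOrder ι] {Φ : ι → Filter ℕ} (hΦ : Antitone Φ)
    (hc : ∀ i, Φ i ≤ cofinite) {A : Set ℕ} (h0 : ∃ᶠ n in cofinite, n ∈ A)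
    (h : ∀ i, ∃ᶠ n in Φ i, n ∈ A) : ∃ᶠ n in cofinite ⊓ ⨅ i, Φ i, n ∈ A := by
  rcases isEmpty_or_nonempty ι with hι | hι
  · simpa using h0
  · have h1 : cofinite ⊓ ⨅ i, Φ i = ⨅ i, Φ i :=
      inf_eq_right.2 ((iInf_le Φ hι.some).trans (hc _))
    rw [h1]
    intro hcon
    obtain ⟨i, hi⟩ := (mem_iInf_of_directed hΦ.directed_ge _).1 hcon
    exact h i hi

theorem exists_filter {ι : Type} [LinearOrder ι] [WellFoundedLT ι]
    (hg : Good g cofinite ∅) (hK : ℵ₀ < #K) (hι : ∀ i : ι, #(Iio i) < #K)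
    (e : ι → Set (ℕ → ℕ)) :
    ∃ F : Filter ℕ, F.NeBot ∧ F ≤ cofinite ∧ ∀ i, Kill F (e i) := by
  let Φ : ι → Filter ℕ × Finset K := WellFounded.fix (wellFounded_lt (α := ι)) fun i r =>
    stepFn g (cofinite ⊓ ⨅ j : Iio i, (r j.1 j.2).1) (⋃ j : Iio i, ((r j.1 j.2).2 : Set K)) (e i)
  have hΦ : ∀ i, Φ i =
      stepFn g (cofinite ⊓ ⨅ j : Iio i, (Φ j.1).1) (⋃ j : Iio i, ((Φ j.1).2 : Set K)) (e i) :=
    fun i => WellFounded.fix_eq _ _ i
  have hle : ∀ i, (Φ i).1 ≤ cofinite ⊓ ⨅ j : Iio i, (Φ j.1).1 := fun i => by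
    rw [hΦ i]; exact stepFn_le _ _ _
  have hc : ∀ i, (Φ i).1 ≤ cofinite := fun i => (hle i).trans inf_le_left
  have hanti : Antitone fun i => (Φ i).1 := by
    intro i j hij
    rcases hij.eq_or_lt with rfl | h
    · exact le_rfl
    · exact (hle j).trans (inf_le_right.trans (iInf_le (fun k : Iio j => (Φ k.1).1) ⟨i, h⟩))
  have hmain : ∀ i, Good g (Φ i).1 ((⋃ j : Iio i, ((Φ j.1).2 : Set K)) ∪ (Φ i).2) ∧
      Kill (Φ i).1 (e i) := by
    intro i
    induction i using WellFoundedLT.induction with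
    | ind i ih =>
      have h1 : Good g (cofinite ⊓ ⨅ j : Iio i, (Φ j.1).1) (⋃ j : Iio i, ((Φ j.1).2 : Set K)) := by
        intro A hA
        refine freq_iInf (Φ := fun j : Iio i => (Φ j.1).1) (fun a b hab => hanti hab)
          (fun j => hc j.1) (hg A (hA.mono (empty_subset _))) fun j => ?_
        refine (ih j.1 j.2).1 A (hA.mono ?_)
        refine union_subset (iUnion_subset fun k => ?_) ?_
        · exact subset_iUnion (fun j : Iio i => ((Φ j.1).2 : Set K)) ⟨k.1, lt_trans k.2 j.2⟩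
        · exact subset_iUnion (fun j : Iio i => ((Φ j.1).2 : Set K)) j
      have h2 : ∃ ξ, ξ ∉ ⋃ j : Iio i, ((Φ j.1).2 : Set K) := by
        by_contra hcon
        push Not at hcon
        have h3 : (⋃ j : Iio i, ((Φ j.1).2 : Set K)) = Set.univ := eq_univ_of_forall hcon
        have h4 := mk_iUnion_le (fun j : Iio i => ((Φ j.1).2 : Set K))
        rw [h3, mk_univ] at h4
        have h5 : (⨆ j : Iio i, #((Φ j.1).2 : Set K)) ≤ ℵ₀ :=
          ciSup_le' fun j => (Φ j.1).2.finite_toSet.countable.le_aleph0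
        have h6 : #(Iio i) * ℵ₀ < #K := mul_lt_of_lt hK.le (hι i) hK
        exact absurd (h4.trans (mul_le_mul_right h5 _)) (not_le.2 h6)
      obtain ⟨ξ, hξ⟩ := h2
      have := stepFn_spec h1 hξ (e i)
      rwa [← hΦ i] at this
  refine ⟨cofinite ⊓ ⨅ i, (Φ i).1, ?_, inf_le_left, fun i =>
    (hmain i).2.mono (inf_le_right.trans (iInf_le (fun i => (Φ i).1) i))⟩
  have hu : ∀ S : Set K, Cond g S Set.univ := fun S => ⟨∅, fun _ => 0, by simp, by simp⟩
  have := freq_iInf hanti hc (hg Set.univ (hu _)) fun i => (hmain i).1 Set.univ (hu _)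
  exact (frequently_true_iff_neBot _).1 (this.mono fun _ _ => trivial)

end step

theorem card_analytic : #{E : Set (ℕ → ℕ) // MeasureTheory.AnalyticSet E} ≤ 𝔠 := by
  let C := {f : (ℕ → ℕ) → ℕ → ℕ // Continuous f}
  have hC : #C ≤ 𝔠 := by
    let d := TopologicalSpace.denseSeq (ℕ → ℕ)
    have hinj : Function.Injective fun f : C => f.1 ∘ d := by
      intro f f' h
      exact Subtype.ext ((TopologicalSpace.denseRange_denseSeq (ℕ → ℕ)).equalizer f.2 f'.2 h)
    refine (mk_le_of_injective hinj).trans ?_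
    simp
  let r : Option C → Set (ℕ → ℕ) := fun o => o.elim ∅ fun f => range f.1
  have hr : ∀ E : {E : Set (ℕ → ℕ) // MeasureTheory.AnalyticSet E}, ∃ o, r o = E.1 := by
    rintro ⟨E, hE⟩
    rw [MeasureTheory.AnalyticSet] at hE
    rcases hE with rfl | ⟨f, hf, rfl⟩
    · exact ⟨none, rfl⟩
    · exact ⟨some ⟨f, hf⟩, rfl⟩
  choose o ho using hr
  have hinj : Function.Injective o := fun a b h => Subtype.ext (by rw [← ho a, ← ho b, h])
  refine (mk_le_of_injective hinj).trans ?_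
  rw [mk_option]
  exact add_le_of_le aleph0_le_continuum hC (one_le_aleph0.trans aleph0_le_continuum)

theorem exists_ultrafilter : ∃ U : Ultrafilter ℕ, (U : Filter ℕ) ≤ cofinite ∧
    ∀ E : Set (ℕ → ℕ), MeasureTheory.AnalyticSet E → Kill U E := by
  obtain ⟨g, hg⟩ := exists_indep
  have hK : #(ℕ → Bool) = 𝔠 := by simp
  have hgood : Good g cofinite ∅ := by
    rintro A ⟨s, v, _, rfl⟩
    exact frequently_cofinite_iff_infinite.2 (hg s v)
  let ι := (𝔠 : Cardinal.{0}).ord.ToType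
  have hι : #ι = 𝔠 := by simp [ι]
  have : Nonempty {E : Set (ℕ → ℕ) // MeasureTheory.AnalyticSet E} :=
    ⟨⟨∅, MeasureTheory.analyticSet_empty⟩⟩
  obtain ⟨j⟩ : Nonempty ({E : Set (ℕ → ℕ) // MeasureTheory.AnalyticSet E} ↪ ι) :=
    (Cardinal.le_def _ _).1 (hι ▸ card_analytic)
  let e : ι → Set (ℕ → ℕ) := fun i => (Function.invFun j i).1
  obtain ⟨F, h1, h2, h3⟩ := exists_filter (ι := ι) hgood (hK ▸ aleph0_lt_continuum)
    (fun i => by rw [hK]; exact mk_Iio_toType_ord_lt i) e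
  refine ⟨Ultrafilter.of F, (Ultrafilter.of_le F).trans h2, fun E hE => ?_⟩
  have := (h3 (j ⟨E, hE⟩)).mono (Ultrafilter.of_le F)
  simpa [e, Function.leftInverse_invFun j.injective ⟨E, hE⟩] using this

end Pool.Agent.Lib.MP_817dae_lc
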